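import Pool.Agent.Q227.EN.Pol
import Pool.Agent.Q227.NoDec

/-!
# Recognising even-nearly conservative arc weights is coNP-hard

The definitions `WData`, `IsWDigraph`, `IsSymmetric`, `IsCycle`, `weight` and
`EvenNearlyConservative` are in `Pool.Agent.Q227.EN.Defs`.

The reduction is from the Hamiltonian cycle problem. Every edge of a graph on `0, …, n - 1` is
subdivided, the vertex `0` gets a twin `0'`, and `0`, `0'` are joined by an edge of weight
`2 n - 1`, while all other edges have weight `-1`; every edge stands for two opposite arcs.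
Without the edge `00'` the digraph is bipartite, so an odd cycle passes through this edge once,
and it is negative if and only if it has `2 n` further arcs, that is, if it passes through all
vertices of the graph.
-/

set_option autoImplicit false

namespace Pool.Agent.Results.MP_d994ca_lc.SymmetricCoNPHard

open Pool.Agent.NPC Pool.Agent.H673R2 Pool.Agent.Q227 Pool.Agent.Q227.EN

/-- Symmetric digraphs with symmetric weights, such that all arcs but two opposite arcs have the
weight `-1`, and the weight of these two arcs is a nonnegative integer which is at most twice the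
number of the vertices. -/
def IsSimple (D : WData) : Prop :=
  IsWDigraph D ∧ IsSymmetric D ∧ ∃ (u v L : ℕ), L ≤ 2 * D.1 ∧
    ∀ a ∈ D.2, a.2 = -1 ∨ ((a.1 = (u, v) ∨ a.1 = (v, u)) ∧ a.2 = L)

theorem isSimple_inst (I : List ℕ × List (ℕ × ℕ)) : IsSimple (inst (I.1.length, I.2)) := by
  refine ⟨mkW_isWDigraph fun v _ => arcB_irrefl v, inst_symmetric _, ?_⟩
  set J : ℕ × List (ℕ × ℕ) := (I.1.length, I.2) with hJ
  refine ⟨(vL J).idxOf (0, 0, 0), (vL J).idxOf (1, 0, 0), 2 * J.1 - 1, ?_, ?_⟩
  · have : J.1 ≤ (vL J).length := by
      unfold vL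
      simp only [List.length_append, List.length_map, List.length_range, List.length_cons]
      omega
    have h2 : (inst J).1 = (vL J).length := rfl
    rw [h2]
    omega
  · rintro ⟨⟨i, j⟩, c⟩ ha
    obtain ⟨x, y, hx, hy, hxy, rfl⟩ := mem_mkW.1 ha
    by_cases h : x.1 ≤ 1 ∧ y.1 ≤ 1
    · right
      have hi : (vL J).idxOf x = i := by
        obtain ⟨h1, h2⟩ := List.getElem?_eq_some_iff.1 hx
        rw [← h2, (vL_nodup J).idxOf_getElem]
      have hj : (vL J).idxOf y = j := by
        obtain ⟨h1, h2⟩ := List.getElem?_eq_some_iff.1 hy
        rw [← h2, (vL_nodup J).idxOf_getElem]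
      have hx' := List.mem_of_getElem? hx
      have hy' := List.mem_of_getElem? hy
      have hends : (x = (0, 0, 0) ∧ y = (1, 0, 0)) ∨ (x = (1, 0, 0) ∧ y = (0, 0, 0)) := by
        obtain ⟨k, p, q⟩ := x
        obtain ⟨k', p', q'⟩ := y
        rw [arcB_iff, arc0_iff, arc0_iff] at hxy
        rw [mem_vL] at hx' hy'
        simp only [Prod.mk.injEq] at *
        omega
      refine ⟨?_, ?_⟩
      · rcases hends with ⟨rfl, rfl⟩ | ⟨rfl, rfl⟩
        · left; rw [hi, hj]
        · right; rw [hi, hj]
      · change wt J.1 x y = _
        rw [wt, if_pos h]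
    · left
      change wt J.1 x y = _
      rw [wt, if_neg h]

/-- **Theorem.** Deciding whether the weights of a weighted digraph are even-nearly conservative is
coNP-hard, even for symmetric digraphs with symmetric weights all of which, except for the weight
of two opposite arcs, are `-1`. Hence, if `P ≠ NP`, no polynomial-time algorithm decides, for every
such weighted digraph, whether the weights are even-nearly conservative. -/
theorem result :
    CoNPHardOn IsSimple EvenNearlyConservative ∧
    (PneNP → ¬ ∃ A : List Bool → List Bool, PolyTime A ∧ ∀ D : WData, IsSimple D →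
      (EvenNearlyConservative D → A (bits D) = [true]) ∧
      (¬ EvenNearlyConservative D → A (bits D) = [false])) := by
  have h0 : ∀ I : List ℕ × List (ℕ × ℕ), 3 ≤ I.1.length →
      (HC.HamL (I.1.length, I.2) ↔ ¬ EvenNearlyConservative (inst (I.1.length, I.2))) :=
    fun I hI => ⟨not_enc_of_ham hI, ham_of_not_enc hI⟩
  refine ⟨coNPHardOn_of HC.hardPr_hamL inst_poly (fun I _ => isSimple_inst I) h0, ?_⟩
  have h : NPHardOn IsSimple (fun D => ¬ EvenNearlyConservative D) :=
    npHardOn_of HC.hardPr_hamL inst_poly (fun I _ => isSimple_inst I) h0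
  exact no_decider_co h

end Pool.Agent.Results.MP_d994ca_lc.SymmetricCoNPHard
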